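import Mathlib
import Pool.Agent.LQ.Fin

/-!
The linear form of the Aaronson-Ambainis inequality with a quasi-polynomial factor: if the
derivatives of `f` are at most `ε` in the sup norm, then
`Var f ≤ 8 d² ‖f‖ M(f) exp (600 (1 + log J) log ((2d)^8 ‖f‖ ε / Var f))`, where
`J = ∑ |S|² f^(S)² / ∑ |S| f^(S)² ≤ d`.
-/

namespace Pool.Agent.Results.MP_f992e4_an.LinearQuasiPolynomial

open Pool.Agent.Helper11.AA Pool.Agent.Helper11.Cube Pool.Agent.SUB Pool.Agent.QAA Pool.Agent.LQ

lemma variance_div {n : ℕ} (f : Cube n → ℝ) (s : ℝ) :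
    variance (fun x => f x / s) = variance f / s ^ 2 := by
  unfold variance
  have h1 : ∀ x, (f x / s) ^ 2 = f x ^ 2 / s ^ 2 := fun x => div_pow _ _ _
  simp_rw [h1, ← Finset.sum_div]
  ring

lemma derivNorm_div {n : ℕ} (f : Cube n → ℝ) {s : ℝ} (hs : 0 < s) (j : Fin n) :
    derivNorm j (fun x => f x / s) = derivNorm j f * s⁻¹ := by
  unfold derivNorm
  have h2 : ∀ x, discreteDeriv j (fun x => f x / s) x ^ 2 = discreteDeriv j f x ^ 2 / s ^ 2 := by
    intro x; unfold discreteDeriv; rw [← sub_div]; ring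
  simp_rw [h2, ← Finset.sum_div]
  rw [div_right_comm, Real.sqrt_div', Real.sqrt_sq hs.le]
  · rfl
  · positivity

lemma maxDerivNorm_div {n : ℕ} (f : Cube n → ℝ) {s : ℝ} (hs : 0 < s) :
    maxDerivNorm (fun x => f x / s) = maxDerivNorm f / s := by
  unfold maxDerivNorm
  simp_rw [derivNorm_div f hs]
  rw [← Real.iSup_mul_of_nonneg (inv_nonneg.mpr hs.le)]
  rfl

theorem result {n d : ℕ} (hd : 1 ≤ d) {f : (Fin n → ℤˣ) → ℝ} (hf : DegreeAtMost f d)
    {ε : ℝ} (hε : ∀ j x, |discreteDeriv j f x| ≤ ε) (hV : 0 < variance f) :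
    variance f ≤ 8 * (d : ℝ) ^ 2 * supNorm f * maxDerivNorm f *
      Real.exp (600 * (1 + Real.log ((∑ S : Finset (Fin n), (S.card : ℝ) ^ 2 * coef f S ^ 2) /
          ∑ S : Finset (Fin n), (S.card : ℝ) * coef f S ^ 2)) *
        Real.log ((2 * (d : ℝ)) ^ 8 * supNorm f * ε / variance f)) := by
  have hTI : ∀ g : Cube n → ℝ, ∑ j, derivNorm j g ^ 2 = TI g := by
    intro g
    unfold TI
    exact Finset.sum_congr rfl (fun j _ => (Iw_eq g j).symm)
  have hV' := variance_le_TI f
  have hI0 : 0 < TI f := lt_of_lt_of_le hV hV'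
  have hN : TI f ≤ TN f := TI_le_TN f
  rw [← TI_eq]
  change variance f ≤ 8 * (d : ℝ) ^ 2 * supNorm f * maxDerivNorm f *
      Real.exp (600 * (1 + Real.log (TN f / TI f)) *
        Real.log ((2 * (d : ℝ)) ^ 8 * supNorm f * ε / variance f))
  set J := TN f / TI f with hJdef
  have hJ1 : 1 ≤ J := by rw [hJdef, le_div_iff₀ hI0]; linarith
  have hJ : TN f = J * TI f := by rw [hJdef]; field_simp
  set V := variance f with hVdef
  have hs : 0 < supNorm f := by
    rcases (supNorm_nonneg f).lt_or_eq with h | h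
    · exact h
    · exfalso
      have h0 : ∀ x, f x = 0 := by
        intro x
        have := le_supNorm f x
        rw [← h] at this
        exact abs_nonpos_iff.mp this
      have h1 : TI f = 0 := by
        unfold TI Iw ex gs discreteDeriv
        simp [h0]
      linarith
  set s := supNorm f with hsdef
  set g : (Fin n → ℤˣ) → ℝ := fun x => f x / s with hg
  have hgB : Bde d (ε / s) g := by
    refine ⟨⟨?_, ?_⟩, ?_⟩
    · rw [← degreeAtMost_iff]
      intro S hS
      have := hf S hS
      simp only [hg, div_mul_eq_mul_div, ← Finset.sum_div, this, zero_div]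
    · intro x
      rw [hg]
      simp only [abs_div, abs_of_pos hs]
      rw [div_le_one hs]
      exact le_supNorm f x
    · intro w x
      have e : discreteDeriv w g x = discreteDeriv w f x / s := by
        rw [hg]; unfold discreteDeriv; rw [← sub_div]; ring
      rw [e, abs_div, abs_of_pos hs]
      exact div_le_div_of_nonneg_right (hε w x) hs.le
  have hTg : TI g = TI f / s ^ 2 := by
    rw [← hTI, ← hTI, Finset.sum_div]
    apply Finset.sum_congr rfl
    intro j _
    rw [hg, derivNorm_div f hs]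
    rw [mul_pow, inv_pow]
    rfl
  have hcoef : ∀ S, coef g S = coef f S / s := by
    intro S
    simp only [coef, ex, hg]
    have e : ∑ x, f x / s * chi S x = (∑ x, f x * chi S x) / s := by
      rw [Finset.sum_div]
      apply Finset.sum_congr rfl
      intro x _
      ring
    rw [e, div_right_comm]
  have hJg : TN g ≤ J * TI g := by
    have e1 : TN g = (∑ S : Finset (Fin n), (S.card : ℝ) ^ 2 * coef f S ^ 2) / s ^ 2 := by
      unfold TN
      rw [Finset.sum_div]
      apply Finset.sum_congr rfl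
      intro S _
      rw [hcoef S]
      ring
    rw [e1, hTg, ← mul_div_assoc, ← hJ]
    rfl
  have hVs : 0 < V / s ^ 2 := by positivity
  have hVs' : V / s ^ 2 ≤ TI g := by
    rw [hTg]
    exact div_le_div_of_nonneg_right hV' (by positivity)
  have h1 := fin_V hd hgB hJ1 hJg hVs hVs'
  rw [hg, maxDerivNorm_div f hs] at h1
  have h2 : (2 * (d : ℝ)) ^ 8 * (ε / s) / (V / s ^ 2) = (2 * (d : ℝ)) ^ 8 * s * ε / V := by
    field_simp
  rw [h2, div_le_iff₀ (by positivity)] at h1
  calc V ≤ _ := h1
    _ = _ := by field_simp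

end Pool.Agent.Results.MP_f992e4_an.LinearQuasiPolynomial
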