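import Mathlib
import Pool.Agent.QRA.Bounds

/-!
Quantum query algorithms: a covariance inequality which gives the inequality of Q1, linear in `M(f)`,
with a factor `exp(O(√T))` for all algorithms with `T` queries, polynomial for boundedly many rounds
of parallel queries, and polynomial for any number of rounds if the variables are queried within
windows of boundedly many rounds.
-/

set_option linter.dupNamespace false

namespace Pool.Agent.Results.MP_f992e4_an.QuantumWindows

open Finset Pool.Agent.Helper11.Cube Pool.Agent.Helper11.AA Pool.Agent.QRA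

/-- The growth factor `2 ∑_{s<w} C(w,s+1) (π p)^s / s!`. -/
noncomputable def growth (p w : ℕ) : ℝ :=
  2 * ∑ s ∈ range w, (w.choose (s + 1) : ℝ) * ((Real.pi * p) ^ s / (s.factorial : ℝ))

/-- `B²` bounds the influences of `g` averaged with the query weights of each of the `N` rounds. -/
def WeightedBound {n : ℕ} {Q : Type} [Fintype Q] (S : ℕ → Q → Finset (Fin n))
    (V : ℕ → Matrix Q Q ℂ) (φ : Q → ℂ) (N : ℕ) (g : (Fin n → ℤˣ) → ℝ) (B : ℝ) : Prop :=
  ∀ k < N, ∑ j, queryWeight S V φ k j * derivNorm j g ^ 2 ≤ B ^ 2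

/-- **Main result.** -/
theorem result {n : ℕ} {Q : Type} [Fintype Q] (p N w : ℕ) (e : Fin n → ℕ)
    (S : ℕ → Q → Finset (Fin n)) (hS : ∀ k a, (S k a).card ≤ p)
    (hwin : ∀ k < N, ∀ a, ∀ i ∈ S k a, k ≤ e i ∧ e i < k + w)
    (V W : ℕ → Matrix Q Q ℂ) (hV : ∀ k, Contraction (V k))
    (hW : ∀ k, Contraction (W k)) (A : Matrix Q Q ℂ) (hA : Contraction A) (φ ψ : Q → ℂ)
    (hφ : l2 φ ≤ 1) (hψ : l2 ψ ≤ 1) (f : (Fin n → ℤˣ) → ℝ)
    (hf : ∀ x, f x = (∑ a, star (state S V φ N x a) * (A.mulVec (state S W ψ N x)) a).re) :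
    DegreeAtMost f (2 * p * N) ∧
    growth p w ≤ 2 * w * Real.exp (2 * Real.sqrt (Real.pi * p * w)) ∧
    ∀ K : ℝ, (K = 1 ∨ (W = V ∧ ψ = φ ∧ Effect A ∧ K = Real.sqrt (supNorm f))) →
      variance f ≤ (univ.image e).card * p * growth p w * K * maxDerivNorm f ∧
      ∀ g : (Fin n → ℤˣ) → ℝ,
        |ex (fun x => f x * g x) - ex f * ex g|
          ≤ (univ.image e).card * p * growth p w * K * maxDerivNorm g ∧
        ∀ B : ℝ, 0 ≤ B → WeightedBound S V φ N g B → WeightedBound S W ψ N g B →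
          |ex (fun x => f x * g x) - ex f * ex g|
            ≤ (univ.image e).card * Real.sqrt p * growth p w * K * B := by
  refine ⟨?_, ?_, ?_⟩
  · rw [degreeAtMost_iff]
    have h := degLE_accept S p hS V W φ ψ A N
    have e : f = fun x => (∑ a, star (state S V φ N x a) * (A.mulVec (state S W ψ N x)) a).re := by
      funext x; exact hf x
    rw [e]
    exact h
  · unfold growth
    have h := sum_le_exp w (y := Real.pi * p) (by positivity)
    have e : (w : ℝ) * (Real.pi * p) = Real.pi * p * w := by ring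
    rw [e] at h
    linarith
  intro K hK
  have hM : 0 ≤ maxDerivNorm f := maxDerivNorm_nonneg f
  have hK0 : 0 ≤ K := by
    rcases hK with hK | ⟨_, _, _, hK⟩
    · rw [hK]; exact zero_le_one
    · rw [hK]; exact Real.sqrt_nonneg _
  have hf' : ∀ x, f x = inner ℝ (st (sysN S p hS) (fun k => ml (V k)) (WithLp.toLp 2 φ) N x)
      (ml A (st (sysN S p hS) (fun k => ml (W k)) (WithLp.toLp 2 ψ) N x)) := by
    intro x
    rw [state_eq, state_eq, inner_eq, hf x]
    rfl
  have hVn : ∀ k (u : HQ Q), ‖ml (V k) u‖ ≤ ‖u‖ := fun k u => norm_ml_le (hV k) u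
  have hWn : ∀ k (u : HQ Q), ‖ml (W k) u‖ ≤ ‖u‖ := fun k u => norm_ml_le (hW k) u
  have hφ' : ‖(WithLp.toLp 2 φ : HQ Q)‖ ≤ 1 := by rw [norm_toLp]; exact hφ
  have hψ' : ‖(WithLp.toLp 2 ψ : HQ Q)‖ ≤ 1 := by rw [norm_toLp]; exact hψ
  -- the two norms of the measured states
  have hαβ : ex (fun x => ‖ml A (st (sysN S p hS) (fun k => ml (W k)) (WithLp.toLp 2 ψ) N x)‖ ^ 2)
        ≤ K ^ 2 ∧
      ex (fun x => ‖ml A.conjTranspose
        (st (sysN S p hS) (fun k => ml (V k)) (WithLp.toLp 2 φ) N x)‖ ^ 2) ≤ K ^ 2 := by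
    rcases hK with hK | ⟨hWV, hψφ, hEff, hK⟩
    · rw [hK]
      constructor
      · refine (ex_mono (g := fun _ => (1 : ℝ) ^ 2) fun x => ?_).trans (le_of_eq (ex_const _))
        refine pow_le_pow_left₀ (norm_nonneg _) ((norm_ml_le hA _).trans ?_) 2
        exact (norm_st_le _ _ hWn _ _ _).trans hψ'
      · refine (ex_mono (g := fun _ => (1 : ℝ) ^ 2) fun x => ?_).trans (le_of_eq (ex_const _))
        refine pow_le_pow_left₀ (norm_nonneg _) ((contraction_conjTranspose hA _).trans ?_) 2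
        exact (norm_st_le _ _ hVn _ _ _).trans hφ'
    · have hkey : ex (fun x => ‖ml A (st (sysN S p hS) (fun k => ml (V k))
          (WithLp.toLp 2 φ) N x)‖ ^ 2) ≤ Real.sqrt (supNorm f) ^ 2 := by
        rw [Real.sq_sqrt (supNorm_nonneg f)]
        refine (ex_mono (g := fun _ => supNorm f) fun x => ?_).trans (le_of_eq (ex_const _))
        rw [state_eq, ml_apply, norm_toLp]
        refine (hEff.2 _).trans ?_
        have h1 := le_supNorm f x
        rw [hf x] at h1
        rw [hWV, hψφ] at h1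
        exact (le_abs_self _).trans h1
      rw [hK]
      constructor
      · rw [hWV, hψφ]; exact hkey
      · rw [hEff.1]; exact hkey
  obtain ⟨hα, hβ⟩ := hαβ
  have hdn : ∀ (g : Cube n → ℝ) j, ex (fun x => dd j g x ^ 2) = derivNorm j g ^ 2 := by
    intro g j
    rw [derivNorm_sq]
    congr 1; funext x
    rw [dd_eq]
  have hP : ∀ k < N, ∀ j (u : HQ Q), ¬ (k ≤ e j ∧ e j < k + w) → (sysN S p hS k).P j u = 0 := by
    intro k hk j u hj
    exact P_eq_zero S p hS k j (fun a ha => hj (hwin k hk a j ha)) u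
  have hwt : ∀ (V : ℕ → Matrix Q Q ℂ) (φ : Q → ℂ) (g : Cube n → ℝ) (B : ℝ),
      WeightedBound S V φ N g B →
      ∀ k < N, ∑ j, ex (fun x => dd j g x ^ 2) * ex (fun y => ‖(sysN S p hS k).P j (ml (V k)
        (st (sysN S p hS) (fun k => ml (V k)) (WithLp.toLp 2 φ) k y))‖ ^ 2) ≤ B ^ 2 := by
    intro V φ g B h k hk
    refine le_trans (le_of_eq ?_) (h k hk)
    apply Finset.sum_congr rfl; intro j _
    rw [annealed_eq, hdn, mul_comm]
  have hcov : ∀ B : ℝ, 0 ≤ B → ∀ g : Cube n → ℝ, WeightedBound S V φ N g B →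
      WeightedBound S W ψ N g B →
      |ex (fun x => f x * g x) - ex f * ex g|
        ≤ (univ.image e).card * Real.sqrt p * growth p w * K * B := by
    intro B hB g h1 h2
    have h := window_cov (sysN S p hS) (fun k => ml (V k)) (fun k => ml (W k)) hVn hWn
      (WithLp.toLp 2 φ) (WithLp.toLp 2 ψ) (ml A) (ml A.conjTranspose) (adj A) N K K hK0 hK0
      hα hβ f hf' e w hP g B B hB hB (hwt V φ g B h1) (hwt W ψ g B h2)
    refine h.trans (le_of_eq ?_)
    unfold growth
    ring
  -- the maximum of the derivatives is a weighted bound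
  have hmax : ∀ (V : ℕ → Matrix Q Q ℂ) (φ : Q → ℂ), (∀ k, Contraction (V k)) → l2 φ ≤ 1 →
      ∀ g : Cube n → ℝ, WeightedBound S V φ N g (Real.sqrt p * maxDerivNorm g) := by
    intro V φ hV hφ g k _
    have hVn : ∀ k (u : HQ Q), ‖ml (V k) u‖ ≤ ‖u‖ := fun k u => norm_ml_le (hV k) u
    have hφ' : ‖(WithLp.toLp 2 φ : HQ Q)‖ ≤ 1 := by rw [norm_toLp]; exact hφ
    have h := annealed_le (sysN S p hS) (fun k => ml (V k)) hVn (WithLp.toLp 2 φ)
      (fun j => derivNorm j g ^ 2) (maxDerivNorm g)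
      (fun j => pow_le_pow_left₀ (derivNorm_nonneg g j) (derivNorm_le g j) 2) k
    have e : ∑ j, queryWeight S V φ k j * derivNorm j g ^ 2
        = ∑ j, derivNorm j g ^ 2 * ex (fun y => ‖(sysN S p hS k).P j (ml (V k)
          (st (sysN S p hS) (fun k => ml (V k)) (WithLp.toLp 2 φ) k y))‖ ^ 2) := by
      apply Finset.sum_congr rfl; intro j _
      rw [annealed_eq, mul_comm]
    rw [e]
    refine h.trans ?_
    apply pow_le_pow_left₀
    · exact mul_nonneg (mul_nonneg (Real.sqrt_nonneg _) (maxDerivNorm_nonneg g)) (norm_nonneg _)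
    · exact mul_le_of_le_one_right (mul_nonneg (Real.sqrt_nonneg _) (maxDerivNorm_nonneg g)) hφ'
  have hpp : Real.sqrt p * Real.sqrt p = (p : ℝ) := Real.mul_self_sqrt (Nat.cast_nonneg p)
  have hcovM : ∀ g : Cube n → ℝ, |ex (fun x => f x * g x) - ex f * ex g|
      ≤ (univ.image e).card * p * growth p w * K * maxDerivNorm g := by
    intro g
    refine (hcov _ (mul_nonneg (Real.sqrt_nonneg _) (maxDerivNorm_nonneg g)) g
      (hmax V φ hV hφ g) (hmax W ψ hW hψ g)).trans (le_of_eq ?_)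
    linear_combination ((univ.image e).card * growth p w * K * maxDerivNorm g) * hpp
  refine ⟨?_, fun g => ⟨hcovM g, fun B hB h1 h2 => hcov B hB g h1 h2⟩⟩
  have h := (le_abs_self _).trans (hcovM f)
  refine le_trans (le_of_eq ?_) h
  rw [variance_eq, sq]
  congr 1
  congr 1; funext x
  ring

end Pool.Agent.Results.MP_f992e4_an.QuantumWindows
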