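import Pool.Agent.RBW.EpsC
import Pool.Agent.RBW.Bound
import Pool.Agent.Helper11.AAQuantities

/-!
The Aaronson-Ambainis inequality, polynomial in the degree, for every function `f` in terms of the weight `W` of its
monomials made of exactly one variable of each of `k` disjoint sets of variables, where `deg f ≤ k + 2 r` (it is enough
that this holds for the monomials which are odd in these sets and even in the other sets of a division), and of a bound
`ε` of the derivatives: `M(f) ≥ ε (W / (2 k (12 (k + r))^(2r) ‖f‖ ε))^C`.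

Proof.  Let `F` be the part of `f` on these monomials.  Averages of `f` over changes of sign of the sets (odd parts of the
`k` sets, even parts of the others) and over noise at the scales `1 - i/M`, `i ≤ r`, are bounded by `‖f‖`; Lagrange
interpolation in the square of the scale gives `|F| ≤ A ‖f‖`, `A = (12 (k + r))^r`, and in the same way
`|D_j F| ≤ A ε`.  The norms of the derivatives of `F` are at most those of `f`, `Var F = W`, and `F` is
block-multilinear.  To `F` one applies the free energy argument of `BMV` (maximal free energy `G` of a distribution of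
mass on the monomials; `G ≥ Var/2` at the beginning, revealing a suitable block costs a factor `1 - C/t`), with the
better bound `G ≤ 2 θ^α ε^(1-2α)` for one block (`RBW.finCE`).
-/

namespace Pool.Agent.Results.MP_f992e4_an.RainbowMonomials

open Finset Pool.Agent.Helper11.AA

/-- The weight `∑ f^(S)²` of the sets `S` consisting of exactly one element of each set
`{i | β i = b}`, `b < k`. -/
noncomputable def rainbowWeight {n : ℕ} (k : ℕ) (β : Fin n → ℕ) (f : (Fin n → ℤˣ) → ℝ) : ℝ :=
  ∑ S ∈ univ.filter (fun S : Finset (Fin n) =>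
    (∀ b < k, (S.filter (fun i => β i = b)).card = 1) ∧ ∀ i ∈ S, β i < k), fourierCoeff f S ^ 2

open Pool.Agent.Helper11.Cube Pool.Agent.RBW in
/-- **Main result.** `β i` is the number of the set which contains the variable `i`.  The hypothesis on the monomials
holds if `deg f ≤ k + 2 r`, and if every monomial of `f` contains at most one variable of each set. -/
theorem result : ∃ C : ℕ, 0 < C ∧ ∀ (n k r : ℕ) (β : Fin n → ℕ) (f : (Fin n → ℤˣ) → ℝ) (ε : ℝ), 1 ≤ k →
    (∀ S : Finset (Fin n), fourierCoeff f S ≠ 0 →
      (∀ b < k, Odd (S.filter (fun i => β i = b)).card) →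
      (∀ b, k ≤ b → Even (S.filter (fun i => β i = b)).card) → S.card ≤ k + 2 * r) →
    (∀ (j : Fin n) (x : Fin n → ℤˣ), |discreteDeriv j f x| ≤ ε) →
    0 < rainbowWeight k β f →
    ε * (rainbowWeight k β f /
      (2 * k * (12 * ((k : ℝ) + r)) ^ (2 * r) * supNorm f * ε)) ^ C ≤ maxDerivNorm f := by
  classical
  obtain ⟨C, hC, H⟩ := finCE
  refine ⟨C, hC, fun n k r β f ε hk hf hdε hW => ?_⟩
  set W := rainbowWeight k β f with hWdef
  have hk1 : (1 : ℝ) ≤ k := by exact_mod_cast hk
  have hr0 : (0 : ℝ) ≤ r := Nat.cast_nonneg r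
  have hd : ∀ S, coef f S ≠ 0 → Par k β S → S.card ≤ k + 2 * r := by
    intro S hS hP
    refine hf S hS (fun b hb => ?_) (fun b hb => ?_)
    · rw [← inter_blk]
      exact hP.1 b hb
    · rw [← inter_blk]
      exact hP.2 b hb
  have hWsum : W = ∑ S : Finset (Fin n), ((if Rb k β S then (1 : ℝ) else 0) * coef f S) ^ 2 := by
    rw [hWdef]
    unfold rainbowWeight
    rw [Finset.sum_filter]
    refine Finset.sum_congr rfl fun S _ => ?_
    by_cases h : Rb k β S
    · rw [if_pos h, one_mul, if_pos (show (∀ b < k, (S.filter (fun i => β i = b)).card = 1) ∧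
        ∀ i ∈ S, β i < k from h)]
      rfl
    · rw [if_neg h, zero_mul, if_neg (show ¬ ((∀ b < k, (S.filter (fun i => β i = b)).card = 1) ∧
        ∀ i ∈ S, β i < k) from h)]
      norm_num
  -- the sup norm
  have hs : 0 < supNorm f := by
    rcases (supNorm_nonneg f).lt_or_eq with h | h
    · exact h
    · exfalso
      have h0 : ∀ x, f x = 0 := by
        intro x
        have := le_supNorm f x
        rw [← h] at this
        exact abs_nonpos_iff.mp this
      have h1 : ∀ S, coef f S = 0 := by
        intro S
        unfold coef ex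
        simp [h0]
      rw [hWsum] at hW
      simp [h1] at hW
  -- `ε > 0`
  have hε : 0 < ε := by
    by_contra hcon
    have h0 : ∀ j x, discreteDeriv j f x = 0 := fun j x =>
      abs_nonpos_iff.mp ((hdε j x).trans (not_lt.mp hcon))
    have h1 : ∀ S : Finset (Fin n), ((if Rb k β S then (1 : ℝ) else 0) * coef f S) ^ 2 = 0 := by
      intro S
      by_cases hR : Rb k β S
      · have h2 : (S.filter (fun i => β i = 0)).Nonempty := by
          rw [← Finset.card_pos, hR.1 0 (by omega)]
          exact one_pos
        obtain ⟨j, hj⟩ := h2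
        have hjS := (mem_filter.mp hj).1
        have h3 := ex_deriv_sq f j
        have h4 : ex (fun x => discreteDeriv j f x ^ 2) = 0 := by
          simp only [h0]
          unfold ex
          simp
        rw [h4] at h3
        have h5 := (Finset.sum_eq_zero_iff_of_nonneg (fun S _ => sq_nonneg (coef f S))).mp h3.symm S
          (mem_filter.mpr ⟨mem_univ _, hjS⟩)
        rw [mul_pow, h5, mul_zero]
      · rw [if_neg hR, zero_mul]
        norm_num
    rw [hWsum, Finset.sum_eq_zero fun S _ => h1 S] at hW
    exact lt_irrefl _ hW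
  obtain ⟨s, hsdef⟩ : ∃ s, s = supNorm f := ⟨_, rfl⟩
  obtain ⟨A, hA⟩ : ∃ A : ℝ, A = (12 * ((k : ℝ) + r)) ^ r := ⟨_, rfl⟩
  have hA1 : 1 ≤ A := by
    rw [hA]
    exact one_le_pow₀ (by linarith)
  have hA0 : 0 < A := by linarith
  rw [← hsdef] at hs ⊢
  have hAs : 0 < A * s := by positivity
  -- the rainbow part, scaled
  set F : Cube n → ℝ := fun x => ∑ S : Finset (Fin n),
    ((if Rb k β S then (1 : ℝ) else 0) * coef f S / (A * s)) * chi S x with hF
  have hcF : ∀ S, coef F S = (if Rb k β S then (1 : ℝ) else 0) * coef f S / (A * s) :=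
    fun S => coef_poly _ S
  have hFb : ∀ x, |F x| ≤ 1 := by
    intro x
    have h1 := rainbow_bound k r hk β f hd s (fun y => by rw [hsdef]; exact le_supNorm f y) x
    have h2 : F x = (∑ S : Finset (Fin n), (if Rb k β S then (1 : ℝ) else 0) * coef f S *
        chi S x) / (A * s) := by
      rw [hF, Finset.sum_div]
      refine Finset.sum_congr rfl fun S _ => ?_
      ring
    rw [h2, abs_div, abs_of_pos hAs, div_le_one hAs, hA]
    exact h1
  -- the derivatives of the rainbow part
  have hFd : ∀ j x, |discreteDeriv j F x| ≤ ε / s := by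
    intro j x
    set g : Cube n → ℝ := fun x => ∑ S : Finset (Fin n), (if j ∈ S then coef f S else 0) * chi S x
      with hg
    have hcg : ∀ S, coef g S = if j ∈ S then coef f S else 0 := fun S => coef_poly _ S
    have hdg : ∀ S, coef g S ≠ 0 → Par k β S → S.card ≤ k + 2 * r := by
      intro S hS hP
      refine hd S (fun h0 => hS ?_) hP
      rw [hcg, h0]
      simp
    have h1 := rainbow_bound k r hk β g hdg ε (fun y => by
      rw [hg]
      simp only
      rw [abs_sum_deriv]
      exact hdε j y) x
    rw [← abs_sum_deriv F j x]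
    have h2 : ∑ S : Finset (Fin n), (if j ∈ S then coef F S else 0) * chi S x =
        (∑ S : Finset (Fin n), (if Rb k β S then (1 : ℝ) else 0) * coef g S * chi S x) / (A * s) := by
      rw [Finset.sum_div]
      refine Finset.sum_congr rfl fun S _ => ?_
      rw [hcF, hcg]
      split_ifs <;> ring
    rw [h2, abs_div, abs_of_pos hAs, div_le_iff₀ hAs]
    refine h1.trans (le_of_eq ?_)
    rw [← hA]
    field_simp
  have hVF : variance F = W / (A * s) ^ 2 := by
    rw [variance_eq_sum, hWsum, Finset.sum_div, ← Finset.add_sum_erase univ _ (Finset.mem_univ ∅)]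
    have h0 : ¬ Rb k β ∅ := by
      intro h
      have := h.1 0 (by omega)
      simp at this
    rw [if_neg h0, zero_mul]
    have : (0 : ℝ) ^ 2 / (A * s) ^ 2 = 0 := by simp
    rw [this, zero_add]
    refine Finset.sum_congr rfl fun S _ => ?_
    rw [hcF, div_pow]
  -- the blocks
  set β' : Fin n → Fin k := fun i => if h : β i < k then ⟨β i, h⟩ else ⟨0, by omega⟩ with hβ'
  have hblock : ∀ S, coef F S ≠ 0 → ∀ b, (S.filter (fun i => β' i = b)).card = 1 := by
    intro S hS b
    have hR : Rb k β S := by
      by_contra hR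
      apply hS
      rw [hcF, if_neg hR]
      simp
    rw [← hR.1 b.1 b.2]
    congr 1
    refine Finset.filter_congr fun i hi => ?_
    simp only [hβ']
    rw [dif_pos (hR.2 i hi)]
    exact Fin.ext_iff
  obtain ⟨hVe, j, hj⟩ := H n k F β' hk hblock hFb (ε / s) (by positivity) hFd
    (by rw [hVF]; positivity)
  -- influences
  have hder : ex (fun x => discreteDeriv j F x ^ 2) ≤ (maxDerivNorm f / (A * s)) ^ 2 := by
    have h1 : ex (fun x => discreteDeriv j F x ^ 2) ≤
        ex (fun x => discreteDeriv j f x ^ 2) / (A * s) ^ 2 := by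
      rw [ex_deriv_sq, ex_deriv_sq, Finset.sum_div]
      refine Finset.sum_le_sum fun S _ => ?_
      rw [hcF, div_pow]
      refine div_le_div_of_nonneg_right ?_ (by positivity)
      split_ifs
      · rw [one_mul]
      · rw [zero_mul, zero_pow two_ne_zero]
        exact sq_nonneg _
    rw [← derivNorm_sq f j] at h1
    refine h1.trans ?_
    rw [div_pow]
    have h4 := derivNorm_le f j
    have h5 := derivNorm_nonneg f j
    gcongr
  -- `x = W/(2 k A² s ε)`
  obtain ⟨x, hx⟩ : ∃ x, x = W / (2 * k * (12 * ((k : ℝ) + r)) ^ (2 * r) * s * ε) := ⟨_, rfl⟩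
  have hA2 : (12 * ((k : ℝ) + r)) ^ (2 * r) = A ^ 2 := by
    rw [hA, ← pow_mul, mul_comm 2 r]
  have e1 : variance F / (2 * (k : ℝ) * (ε / s)) = x := by
    rw [hVF, hx, hA2]
    field_simp
  have hx0 : 0 ≤ x := by rw [hx]; positivity
  have hx1 : x ≤ 1 := by
    rw [← e1, div_le_one (by positivity)]
    have h1 : 0 < ε / s := by positivity
    nlinarith
  rw [e1] at hj
  rw [← hx]
  have h6 : x ^ C ≤ (maxDerivNorm f / (A * ε)) ^ 2 := by
    refine hj.trans ?_
    have h7 : (maxDerivNorm f / (A * ε)) ^ 2 = (maxDerivNorm f / (A * s)) ^ 2 / (ε / s) ^ 2 := by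
      field_simp
    rw [h7]
    exact div_le_div_of_nonneg_right hder (by positivity)
  have h7 : (x ^ C) ^ 2 ≤ (maxDerivNorm f / (A * ε)) ^ 2 := by
    refine le_trans ?_ h6
    have h8 : 0 ≤ x ^ C := pow_nonneg hx0 C
    have h9 : x ^ C ≤ 1 := pow_le_one₀ hx0 hx1
    nlinarith
  have hAε : 0 < A * ε := by positivity
  have h8 : x ^ C ≤ maxDerivNorm f / (A * ε) :=
    (pow_le_pow_iff_left₀ (pow_nonneg hx0 C)
      (div_nonneg (maxDerivNorm_nonneg f) hAε.le) two_ne_zero).mp h7
  rw [le_div_iff₀ hAε] at h8
  have h9 : 0 ≤ x ^ C := pow_nonneg hx0 C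
  nlinarith [mul_nonneg h9 hε.le]

end Pool.Agent.Results.MP_f992e4_an.RainbowMonomials
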