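import Mathlib
import Pool.Agent.Helper11.AAQuantities
import Pool.Agent.Helper57.PT.Levels

/-!
The strengthened Aaronson-Ambainis inequality for functions bounded on the complex torus.

Let `g` be a polynomial bounded by `T` on the torus `|z_1| = ... = |z_n| = 1` whose coefficient at
the square-free monomial `∏_{i ∈ S} z_i` is the Fourier coefficient of `f` at `S`, for all `S`
whose number of elements belongs to `K`. Then the Fourier weight of `f` on the levels in `K` is at
most `√2 (∑_{k ∈ K} √k) T M(f)`.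

Proof, for one level `k`: by rotations the homogeneous part `F` of `g` of degree `k` is also bounded
by `T`. With the norm of `L^2` of the torus let `r_m = ‖F^(m+1)‖^2 / ‖F^m‖^2`. As `|conj F| = |F|` on
the torus, `‖F^(m+2)‖ = ‖conj(F) F^(m+1)‖`; the monomials of `conj(F) F^(m+1)` without negative
exponents contribute at least `‖F^(m+1)‖^4 / ‖F^m‖^2`, and those with `k` exponents equal to `-1` at
least `(W - k (m+1) M(f)^2) ‖F^(m+1)‖^2`, where `W` is the weight of `f` on the level `k`. Hence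
`r_(m+1) ≥ r_m + W - k (m+1) M(f)^2`, while `r_m ≤ T^2` for all `m`; so `W^2 ≤ 2 k T^2 M(f)^2`.
-/

set_option linter.dupNamespace false

namespace Pool.Agent.Results.MP_f992e4_an.TorusBounded

open Finset Pool.Agent.Helper11.AA

/-- **Main result.** -/
theorem result (n : ℕ) (f : (Fin n → ℤˣ) → ℝ) (K : Finset ℕ) (hK : ∀ k ∈ K, 1 ≤ k)
    (g : MvPolynomial (Fin n) ℂ) (T : ℝ)
    (hg : ∀ S : Finset (Fin n), S.card ∈ K →
      g.coeff (Finsupp.indicator S (fun _ _ => 1)) = ((fourierCoeff f S : ℝ) : ℂ))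
    (hT : ∀ z : Fin n → ℂ, (∀ i, ‖z i‖ = 1) → ‖MvPolynomial.eval z g‖ ≤ T) :
    ∑ S ∈ univ.filter (fun S : Finset (Fin n) => S.card ∈ K), fourierCoeff f S ^ 2
      ≤ Real.sqrt 2 * (∑ k ∈ K, Real.sqrt k) * T * maxDerivNorm f ∧
    ∀ d : ℕ, DegreeAtMost f d → Finset.Icc 1 d ⊆ K →
      variance f ≤ Real.sqrt 2 * (d : ℝ) ^ (3 / 2 : ℝ) * T * maxDerivNorm f :=
  ⟨Pool.Agent.Helper57.PT.levelSet f K hK g T hg hT, fun _ hd hdK =>
    Pool.Agent.Helper57.PT.variance_levels f hd g T (fun S hS => hg S (hdK hS)) hT⟩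

end Pool.Agent.Results.MP_f992e4_an.TorusBounded
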